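import Pool.Agent.N322.TF.Data

/-!
# The check of the closed set, one part
-/

set_option autoImplicit false

namespace Pool.Agent.N322.TF

theorem h0_0 : allT (rOK t0) c0_0 = true := by decide +kernel

theorem h0_1 : allT (rOK t0) c0_1 = true := by decide +kernel

theorem h0_2 : allT (rOK t0) c0_2 = true := by decide +kernel

theorem h0_3 : allT (rOK t0) c0_3 = true := by decide +kernel

theorem h0_4 : allT (rOK t0) c0_4 = true := by decide +kernel

theorem h0_5 : allT (rOK t0) c0_5 = true := by decide +kernel

theorem h0_6 : allT (rOK t0) c0_6 = true := by decide +kernel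

theorem h0_7 : allT (rOK t0) c0_7 = true := by decide +kernel

theorem h0_8 : allT (rOK t0) c0_8 = true := by decide +kernel

theorem h0_9 : allT (rOK t0) c0_9 = true := by decide +kernel

theorem h0_10 : allT (rOK t0) c0_10 = true := by decide +kernel

theorem h0_11 : allT (rOK t0) c0_11 = true := by decide +kernel

theorem h0_12 : allT (rOK t0) c0_12 = true := by decide +kernel

theorem h0_13 : allT (rOK t0) c0_13 = true := by decide +kernel

end Pool.Agent.N322.TF
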