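import Pool.Agent.N322.TF.Data

/-!
# The check of the closed set, one part
-/

set_option autoImplicit false

namespace Pool.Agent.N322.TF

theorem h0_14 : allT (rOK t0) c0_14 = true := by decide +kernel

theorem h0_15 : allT (rOK t0) c0_15 = true := by decide +kernel

theorem h0_16 : allT (rOK t0) c0_16 = true := by decide +kernel

theorem h0_17 : allT (rOK t0) c0_17 = true := by decide +kernel

theorem h0_18 : allT (rOK t0) c0_18 = true := by decide +kernel

theorem h0_19 : allT (rOK t0) c0_19 = true := by decide +kernel

theorem h0_20 : allT (rOK t0) c0_20 = true := by decide +kernel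

theorem h0_21 : allT (rOK t0) c0_21 = true := by decide +kernel

theorem h0_22 : allT (rOK t0) c0_22 = true := by decide +kernel

theorem h0_23 : allT (rOK t0) c0_23 = true := by decide +kernel

theorem h0_24 : allT (rOK t0) c0_24 = true := by decide +kernel

theorem h0_25 : allT (rOK t0) c0_25 = true := by decide +kernel

theorem h0_26 : allT (rOK t0) c0_26 = true := by decide +kernel

theorem h0_27 : allT (rOK t0) c0_27 = true := by decide +kernel

end Pool.Agent.N322.TF
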