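import Pool.Agent.N322.TF.Data

/-!
# The check of the closed set, one part
-/

set_option autoImplicit false

namespace Pool.Agent.N322.TF

theorem h0_28 : allT (rOK t0) c0_28 = true := by decide +kernel

theorem h0_29 : allT (rOK t0) c0_29 = true := by decide +kernel

theorem h0_30 : allT (rOK t0) c0_30 = true := by decide +kernel

theorem h0_31 : allT (rOK t0) c0_31 = true := by decide +kernel

theorem h0_32 : allT (rOK t0) c0_32 = true := by decide +kernel

theorem h0_33 : allT (rOK t0) c0_33 = true := by decide +kernel

theorem h0_34 : allT (rOK t0) c0_34 = true := by decide +kernel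

theorem h0_35 : allT (rOK t0) c0_35 = true := by decide +kernel

theorem h0_36 : allT (rOK t0) c0_36 = true := by decide +kernel

theorem h0_37 : allT (rOK t0) c0_37 = true := by decide +kernel

theorem h0_38 : allT (rOK t0) c0_38 = true := by decide +kernel

theorem h0_39 : allT (rOK t0) c0_39 = true := by decide +kernel

theorem h0_40 : allT (rOK t0) c0_40 = true := by decide +kernel

theorem h1_0 : allT (rlOK t0 t1) c1_0 = true := by decide +kernel

end Pool.Agent.N322.TF
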