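import Pool.Agent.N322.TF.Data

/-!
# The check of the closed set, one part
-/

set_option autoImplicit false

namespace Pool.Agent.N322.TF

theorem h1_1 : allT (rlOK t0 t1) c1_1 = true := by decide +kernel

theorem h1_2 : allT (rlOK t0 t1) c1_2 = true := by decide +kernel

theorem h1_3 : allT (rlOK t0 t1) c1_3 = true := by decide +kernel

theorem h1_4 : allT (rlOK t0 t1) c1_4 = true := by decide +kernel

theorem h1_5 : allT (rlOK t0 t1) c1_5 = true := by decide +kernel

theorem h1_6 : allT (rlOK t0 t1) c1_6 = true := by decide +kernel

theorem h1_7 : allT (rlOK t0 t1) c1_7 = true := by decide +kernel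

theorem h1_8 : allT (rlOK t0 t1) c1_8 = true := by decide +kernel

theorem h1_9 : allT (rlOK t0 t1) c1_9 = true := by decide +kernel

theorem h1_10 : allT (rlOK t0 t1) c1_10 = true := by decide +kernel

theorem h1_11 : allT (rlOK t0 t1) c1_11 = true := by decide +kernel

theorem h1_12 : allT (rlOK t0 t1) c1_12 = true := by decide +kernel

theorem h1_13 : allT (rlOK t0 t1) c1_13 = true := by decide +kernel

theorem h1_14 : allT (rlOK t0 t1) c1_14 = true := by decide +kernel

end Pool.Agent.N322.TF
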