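import Pool.Agent.N322.TF.Data

/-!
# The check of the closed set, one part
-/

set_option autoImplicit false

namespace Pool.Agent.N322.TF

theorem h1_15 : allT (rlOK t0 t1) c1_15 = true := by decide +kernel

theorem h1_16 : allT (rlOK t0 t1) c1_16 = true := by decide +kernel

theorem h1_17 : allT (rlOK t0 t1) c1_17 = true := by decide +kernel

theorem h1_18 : allT (rlOK t0 t1) c1_18 = true := by decide +kernel

theorem h1_19 : allT (rlOK t0 t1) c1_19 = true := by decide +kernel

theorem h1_20 : allT (rlOK t0 t1) c1_20 = true := by decide +kernel

theorem h1_21 : allT (rlOK t0 t1) c1_21 = true := by decide +kernel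

theorem h1_22 : allT (rlOK t0 t1) c1_22 = true := by decide +kernel

theorem h1_23 : allT (rlOK t0 t1) c1_23 = true := by decide +kernel

theorem h1_24 : allT (rlOK t0 t1) c1_24 = true := by decide +kernel

theorem h1_25 : allT (rlOK t0 t1) c1_25 = true := by decide +kernel

theorem h1_26 : allT (rlOK t0 t1) c1_26 = true := by decide +kernel

theorem h1_27 : allT (rlOK t0 t1) c1_27 = true := by decide +kernel

theorem h1_28 : allT (rlOK t0 t1) c1_28 = true := by decide +kernel

end Pool.Agent.N322.TF
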