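import Pool.Agent.N322.TF.Strat

/-!
# Numerical codes of positions, and the check of a closed set of positions
-/

set_option autoImplicit false

namespace Pool.Agent.N322.TF

open Square Game

/-- search trees: leaves hold the codes -/
inductive Tr : Type
  | l (k : ℕ) : Tr
  | n (a : Tr) (k : ℕ) (b : Tr) : Tr

noncomputable def mem (t : Tr) (c : ℕ) : Bool :=
  Tr.rec (motive := fun _ => Bool) (fun k => Nat.beq k c)
    (fun _ k _ iha ihb => Bool.rec (motive := fun _ => Bool) iha ihb (Nat.ble k c)) t

noncomputable def allT (f : ℕ → Bool) (t : Tr) : Bool :=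
  Tr.rec (motive := fun _ => Bool) (fun k => f k)
    (fun _ _ _ iha ihb => Bool.rec (motive := fun _ => Bool) false ihb iha) t

theorem allT_n (f : ℕ → Bool) (a b : Tr) (k : ℕ) :
    allT f (Tr.n a k b) = true ↔ allT f a = true ∧ allT f b = true := by
  change Bool.rec (motive := fun _ => Bool) false (allT f b) (allT f a) = true ↔ _
  cases allT f a <;> simp

theorem mem_of_allT (f : ℕ → Bool) (c : ℕ) : ∀ t : Tr, allT f t = true → mem t c = true →
    f c = true := by
  intro t
  induction t with
  | l k =>
    intro h1 h2
    change Nat.beq k c = true at h2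
    rw [← Nat.eq_of_beq_eq_true h2]
    exact h1
  | n a k b iha ihb =>
    intro h1 h2
    rw [allT_n] at h1
    change Bool.rec (motive := fun _ => Bool) (mem a c) (mem b c) (Nat.ble k c) = true at h2
    cases h : Nat.ble k c with
    | false => rw [h] at h2; exact iha h1.1 h2
    | true => rw [h] at h2; exact ihb h1.2 h2

noncomputable def anyN (f : ℕ → Bool) (l : List ℕ) : Bool :=
  List.rec (motive := fun _ => Bool) false
    (fun w _ ih => Bool.rec (motive := fun _ => Bool) ih true (f w)) l

noncomputable def allN (f : ℕ → Bool) (l : List ℕ) : Bool :=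
  List.rec (motive := fun _ => Bool) true
    (fun w _ ih => Bool.rec (motive := fun _ => Bool) false ih (f w)) l

theorem anyN_iff (f : ℕ → Bool) (l : List ℕ) : anyN f l = true ↔ ∃ w ∈ l, f w = true := by
  induction l with
  | nil => simp [anyN]
  | cons w l ih =>
    change Bool.rec (motive := fun _ => Bool) (anyN f l) true (f w) = true ↔ _
    cases h : f w <;> simp [h, ih]

theorem allN_iff (f : ℕ → Bool) (l : List ℕ) : allN f l = true ↔ ∀ w ∈ l, f w = true := by
  induction l with
  | nil => simp [allN]
  | cons w l ih =>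
    change Bool.rec (motive := fun _ => Bool) false (allN f l) (f w) = true ↔ _
    cases h : f w <;> simp [h, ih]

/-- the powers `4 ^ i`, `i < 19` -/
def pows : List ℕ := [1, 4, 16, 64, 256, 1024, 4096, 16384, 65536, 262144, 1048576, 4194304,
  16777216, 67108864, 268435456, 1073741824, 4294967296, 17179869184, 68719476736]

theorem pows_eq : pows = (List.range 19).map (fun i => 4 ^ i) := by decide

theorem mem_pows (w : ℕ) : w ∈ pows ↔ ∃ i < 19, w = 4 ^ i := by
  rw [pows_eq, List.mem_map]
  simp only [List.mem_range, eq_comm]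

/-- Left has a move from the position coded by `q` into `t` -/
noncomputable def lOK (t : Tr) (q : ℕ) : Bool :=
  anyN (fun w => Bool.rec (motive := fun _ => Bool)
    (Bool.rec (motive := fun _ => Bool) false (mem t (Nat.sub q (Nat.mul 30 w)))
      (Nat.beq (Nat.mod (Nat.div q w) 64) 57))
    (mem t (Nat.sub q (Nat.mul 6 w)))
    (Nat.beq (Nat.mod (Nat.div q w) 16) 13)) pows

/-- after every move of Right from the position coded by `c` Left has a move into `t` -/
noncomputable def rOK (t : Tr) (c : ℕ) : Bool :=
  allN (fun w => Bool.rec (motive := fun _ => Bool)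
    (Bool.rec (motive := fun _ => Bool) true (lOK t (Nat.add c (Nat.mul 15 w)))
      (Nat.beq (Nat.mod (Nat.div c w) 64) 39))
    (lOK t (Nat.add c (Nat.mul 3 w)))
    (Nat.beq (Nat.mod (Nat.div c w) 16) 11)) pows

noncomputable def rlOK (t0 t1 : Tr) (c : ℕ) : Bool :=
  Bool.rec (motive := fun _ => Bool) false (rOK t1 c) (lOK t0 c)

/-- the digit of a square -/
def dg : Square → ℕ
  | toad => 1
  | frog => 2
  | empty => 3

/-- the code of a position -/
def enc : List Square → ℕ
  | [] => 0
  | x :: p => dg x + 4 * enc p

theorem dg_lt (x : Square) : dg x < 4 := by cases x <;> decide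

theorem enc_append (u v : List Square) : enc (u ++ v) = enc u + 4 ^ u.length * enc v := by
  induction u with
  | nil => simp [enc]
  | cons x u ih => simp only [List.cons_append, enc, ih, List.length_cons, pow_succ]; ring

theorem enc_div (u v : List Square) : enc (u ++ v) / 4 ^ u.length = enc v := by
  induction u with
  | nil => simp
  | cons x u ih =>
    simp only [List.cons_append, enc, List.length_cons, pow_succ']
    rw [← Nat.div_div_eq_div_mul]
    have := dg_lt x
    have e : (dg x + 4 * enc (u ++ v)) / 4 = enc (u ++ v) := by omega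
    rw [e, ih]

theorem find2 : ∀ (i : ℕ) (q : List Square), enc q / 4 ^ i % 16 = 13 →
    ∃ u v, q = u ++ toad :: empty :: v ∧ u.length = i := by
  intro i
  induction i with
  | zero =>
    intro q h
    rw [pow_zero, Nat.div_one] at h
    match q with
    | [] => simp [enc] at h
    | [x] => cases x <;> simp [enc, dg] at h
    | x :: y :: v =>
      refine ⟨[], v, ?_, rfl⟩
      simp only [enc] at h
      cases x <;> cases y <;> simp only [dg] at h <;> first | rfl | omega
  | succ i ih =>
    intro q h
    match q with
    | [] => simp [enc] at h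
    | x :: q =>
      have e : enc (x :: q) / 4 ^ (i + 1) = enc q / 4 ^ i := by
        rw [pow_succ', ← Nat.div_div_eq_div_mul]
        have := dg_lt x
        have e : enc (x :: q) / 4 = enc q := by simp only [enc]; omega
        rw [e]
      rw [e] at h
      obtain ⟨u, v, h1, h2⟩ := ih q h
      exact ⟨x :: u, v, by rw [h1]; rfl, by simp [h2]⟩

theorem find3 : ∀ (i : ℕ) (q : List Square), enc q / 4 ^ i % 64 = 57 →
    ∃ u v, q = u ++ toad :: frog :: empty :: v ∧ u.length = i := by
  intro i
  induction i with
  | zero =>
    intro q h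
    rw [pow_zero, Nat.div_one] at h
    match q with
    | [] => simp [enc] at h
    | [x] => cases x <;> simp [enc, dg] at h
    | [x, y] => cases x <;> cases y <;> simp [enc, dg] at h
    | x :: y :: z :: v =>
      refine ⟨[], v, ?_, rfl⟩
      simp only [enc] at h
      cases x <;> cases y <;> cases z <;> simp only [dg] at h <;> first | rfl | omega
  | succ i ih =>
    intro q h
    match q with
    | [] => simp [enc] at h
    | x :: q =>
      have e : enc (x :: q) / 4 ^ (i + 1) = enc q / 4 ^ i := by
        rw [pow_succ', ← Nat.div_div_eq_div_mul]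
        have := dg_lt x
        have e : enc (x :: q) / 4 = enc q := by simp only [enc]; omega
        rw [e]
      rw [e] at h
      obtain ⟨u, v, h1, h2⟩ := ih q h
      exact ⟨x :: u, v, by rw [h1]; rfl, by simp [h2]⟩

theorem beq_iff' (a b : ℕ) : Nat.beq a b = true ↔ a = b :=
  ⟨Nat.eq_of_beq_eq_true, by rintro rfl; exact Nat.beq_refl _⟩

theorem bool_rec_true (a b c : Bool) :
    Bool.rec (motive := fun _ => Bool) a b c = true ↔
      (c = false ∧ a = true) ∨ (c = true ∧ b = true) := by
  cases c <;> simp

theorem lOK_sound (t : Tr) (q : List Square) (h : lOK t (enc q) = true) :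
    ∃ r, LeftMove q r ∧ r.length = q.length ∧ mem t (enc r) = true := by
  unfold lOK at h
  rw [anyN_iff] at h
  obtain ⟨w, hw, h⟩ := h
  obtain ⟨i, -, rfl⟩ := (mem_pows w).1 hw
  rw [bool_rec_true, bool_rec_true] at h
  rcases h with ⟨-, h⟩ | ⟨h1, h2⟩
  · rcases h with ⟨-, h⟩ | ⟨h1, h2⟩
    · exact absurd h (by decide)
    · obtain ⟨u, v, rfl, rfl⟩ := find3 i q (Nat.eq_of_beq_eq_true h1)
      refine ⟨u ++ empty :: frog :: toad :: v, LeftMove.jump u v, by simp, ?_⟩
      have e : enc (u ++ empty :: frog :: toad :: v) =
          Nat.sub (enc (u ++ toad :: frog :: empty :: v)) (Nat.mul 30 (4 ^ u.length)) := by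
        rw [enc_append, enc_append]
        simp only [enc, dg]
        show _ = enc u + _ - 30 * 4 ^ u.length
        generalize 4 ^ u.length = w
        generalize enc u = a
        generalize enc v = b
        have : w * (1 + 4 * (2 + 4 * (3 + 4 * b))) = w * (3 + 4 * (2 + 4 * (1 + 4 * b))) + 30 * w := by
          ring
        omega
      rw [e]
      exact h2
  · obtain ⟨u, v, rfl, rfl⟩ := find2 i q (Nat.eq_of_beq_eq_true h1)
    refine ⟨u ++ empty :: toad :: v, LeftMove.step u v, by simp, ?_⟩
    have e : enc (u ++ empty :: toad :: v) =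
        Nat.sub (enc (u ++ toad :: empty :: v)) (Nat.mul 6 (4 ^ u.length)) := by
      rw [enc_append, enc_append]
      simp only [enc, dg]
      show _ = enc u + _ - 6 * 4 ^ u.length
      generalize 4 ^ u.length = w
      generalize enc u = a
      generalize enc v = b
      have : w * (1 + 4 * (3 + 4 * b)) = w * (3 + 4 * (1 + 4 * b)) + 6 * w := by
        ring
      omega
    rw [e]
    exact h2

theorem rOK_sound (t : Tr) (p q : List Square) (hp : p.length = 20) (h : rOK t (enc p) = true)
    (hq : RightMove p q) : q.length = 20 ∧ lOK t (enc q) = true := by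
  unfold rOK at h
  rw [allN_iff] at h
  cases hq with
  | step u v =>
    have hlen : u.length + (v.length + 2) = 20 := by simpa using hp
    refine ⟨by simp; omega, ?_⟩
    have hw := h (4 ^ u.length) ((mem_pows _).2 ⟨u.length, by omega, rfl⟩)
    have e1 : Nat.beq (Nat.mod (Nat.div (enc (u ++ empty :: frog :: v)) (4 ^ u.length)) 16) 11 =
        true := by
      rw [beq_iff']
      show enc (u ++ empty :: frog :: v) / 4 ^ u.length % 16 = 11
      rw [enc_div]
      simp only [enc, dg]
      omega
    rw [e1] at hw
    have e : enc (u ++ frog :: empty :: v) =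
        Nat.add (enc (u ++ empty :: frog :: v)) (Nat.mul 3 (4 ^ u.length)) := by
      rw [enc_append, enc_append]
      simp only [enc, dg]
      show _ = enc u + _ + 3 * 4 ^ u.length
      ring
    rw [e]
    exact hw
  | jump u v =>
    have hlen : u.length + (v.length + 3) = 20 := by simpa using hp
    refine ⟨by simp; omega, ?_⟩
    have hw := h (4 ^ u.length) ((mem_pows _).2 ⟨u.length, by omega, rfl⟩)
    have e0 : Nat.beq (Nat.mod (Nat.div (enc (u ++ empty :: toad :: frog :: v)) (4 ^ u.length)) 16)
        11 = false := by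
      rw [← Bool.not_eq_true, beq_iff']
      show ¬ enc (u ++ empty :: toad :: frog :: v) / 4 ^ u.length % 16 = 11
      rw [enc_div]
      simp only [enc, dg]
      omega
    have e1 : Nat.beq (Nat.mod (Nat.div (enc (u ++ empty :: toad :: frog :: v)) (4 ^ u.length)) 64)
        39 = true := by
      rw [beq_iff']
      show enc (u ++ empty :: toad :: frog :: v) / 4 ^ u.length % 64 = 39
      rw [enc_div]
      simp only [enc, dg]
      omega
    rw [e0] at hw
    simp only at hw
    rw [e1] at hw
    have e : enc (u ++ frog :: toad :: empty :: v) =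
        Nat.add (enc (u ++ empty :: toad :: frog :: v)) (Nat.mul 15 (4 ^ u.length)) := by
      rw [enc_append, enc_append]
      simp only [enc, dg]
      show _ = enc u + _ + 15 * 4 ^ u.length
      ring
    rw [e]
    exact hw

/-- the conclusion of the check -/
theorem sound (t0 t1 : Tr) (h0 : allT (rOK t0) t0 = true) (h1 : allT (rlOK t0 t1) t1 = true)
    (p : List Square) (hp : p.length = 20) (hm : mem t1 (enc p) = true) :
    ∀ H : Game, MinusOne H → ¬ (firstWins (add (value p) H)).2 := by
  intro H hH
  refine closed (fun p j => p.length = 20 ∧ mem (if j then t1 else t0) (enc p) = true) ?_ ?_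
    (rank p) p true le_rfl ⟨hp, hm⟩ H (fun _ => hH) (by simp)
  · rintro p j ⟨h2, h3⟩ q hq
    cases j with
    | false =>
      have h4 := mem_of_allT _ _ _ h0 h3
      obtain ⟨h5, h6⟩ := rOK_sound t0 p q h2 h4 hq
      obtain ⟨r, h7, h8, h9⟩ := lOK_sound t0 q h6
      exact ⟨r, h7, by rw [h8, h5], h9⟩
    | true =>
      have h4 := mem_of_allT _ _ _ h1 h3
      unfold rlOK at h4
      rw [bool_rec_true] at h4
      rcases h4 with ⟨-, h4⟩ | ⟨-, h4⟩
      · exact absurd h4 (by decide)
      · obtain ⟨h5, h6⟩ := rOK_sound t1 p q h2 h4 hq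
        obtain ⟨r, h7, h8, h9⟩ := lOK_sound t1 q h6
        exact ⟨r, h7, by rw [h8, h5], h9⟩
  · rintro p ⟨h2, h3⟩
    have h4 := mem_of_allT _ _ _ h1 h3
    unfold rlOK at h4
    rw [bool_rec_true] at h4
    rcases h4 with ⟨-, h4⟩ | ⟨h4, -⟩
    · exact absurd h4 (by decide)
    · obtain ⟨r, h7, h8, h9⟩ := lOK_sound t0 p h4
      exact ⟨r, h7, by rw [h8, h2], h9⟩

end Pool.Agent.N322.TF
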