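import Mathlib

/-!
# Partizan games and the game Toads and Frogs

Conway's theory of partizan games under normal play, and the value of a Toads and Frogs position.
-/

set_option autoImplicit false

namespace Pool.Agent.N322.TF

/-- A partizan game: the Left options `L a` and the Right options `R b`. -/
inductive Game : Type 1
  | mk (α β : Type) (L : α → Game) (R : β → Game) : Game

namespace Game

/-- `0 = { | }` -/
def zero : Game := mk Empty Empty (fun a => a.elim) (fun b => b.elim)

/-- `1 = {0 | }` -/
def one : Game := mk Unit Empty (fun _ => zero) (fun b => b.elim)

/-- `* = {0 | 0}` -/
def star : Game := mk Unit Unit (fun _ => zero) (fun _ => zero)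

/-- `-G`: the roles of the players are exchanged -/
def neg : Game → Game
  | mk α β L R => mk β α (fun b => neg (R b)) (fun a => neg (L a))

/-- Auxiliary to `add`; here `ihL a` is `H ↦ L a + H` and `ihR b` is `H ↦ R b + H`. -/
def addAux (α β : Type) (ihL : α → Game → Game) (ihR : β → Game → Game) : Game → Game
  | mk α' β' L' R' => mk (α ⊕ α') (β ⊕ β')
      (Sum.elim (fun a => ihL a (mk α' β' L' R')) (fun a' => addAux α β ihL ihR (L' a')))
      (Sum.elim (fun b => ihR b (mk α' β' L' R')) (fun b' => addAux α β ihL ihR (R' b')))

/-- The disjunctive sum `G + H`; see `add_mk_mk`. -/
def add : Game → Game → Game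
  | mk α β L R => addAux α β (fun a => add (L a)) (fun b => add (R b))

theorem add_mk_mk (α β α' β' : Type) (L : α → Game) (R : β → Game) (L' : α' → Game)
    (R' : β' → Game) :
    add (mk α β L R) (mk α' β' L' R') = mk (α ⊕ α') (β ⊕ β')
      (Sum.elim (fun a => add (L a) (mk α' β' L' R')) (fun a' => add (mk α β L R) (L' a')))
      (Sum.elim (fun b => add (R b) (mk α' β' L' R')) (fun b' => add (mk α β L R) (R' b'))) := rfl

/-- `(firstWins G).1`: Left wins `G` if she moves first; `(firstWins G).2`: Right wins `G` if he moves
first. (Normal play: a player who cannot move loses.) -/
def firstWins : Game → Prop × Prop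
  | mk _ _ L R => (∃ a, ¬ (firstWins (L a)).2, ∃ b, ¬ (firstWins (R b)).1)

/-- `G` is a second-player win. -/
def SecondPlayerWins (G : Game) : Prop := ¬ (firstWins G).1 ∧ ¬ (firstWins G).2

/-- `G = H` as values: `G - H` is a second-player win. -/
def Equal (G H : Game) : Prop := SecondPlayerWins (add G (neg H))

end Game

/-- The contents of a square of the strip. -/
inductive Square : Type
  | toad | frog | empty
  deriving DecidableEq

open Square

/-- Left's moves: a toad moves one square to the right into an empty square, or jumps to the right
over exactly one frog into an empty square. -/
inductive LeftMove : List Square → List Square → Prop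
  | step (u v : List Square) : LeftMove (u ++ toad :: empty :: v) (u ++ empty :: toad :: v)
  | jump (u v : List Square) :
      LeftMove (u ++ toad :: frog :: empty :: v) (u ++ empty :: frog :: toad :: v)

/-- Right's moves: a frog moves one square to the left into an empty square, or jumps to the left
over exactly one toad into an empty square. -/
inductive RightMove : List Square → List Square → Prop
  | step (u v : List Square) : RightMove (u ++ empty :: frog :: v) (u ++ frog :: empty :: v)
  | jump (u v : List Square) :
      RightMove (u ++ empty :: toad :: frog :: v) (u ++ frog :: toad :: empty :: v)

/-- A number which every move reduces: the number of pairs `i < j` such that square `i` holds a toad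
and square `j` does not, or square `j` holds a frog and square `i` does not. -/
def rank : List Square → ℕ
  | [] => 0
  | toad :: p => p.countP (fun x => x ≠ toad) + p.countP (fun x => x = frog) + rank p
  | frog :: p => rank p
  | empty :: p => p.countP (fun x => x = frog) + rank p

theorem rank_append (u p q : List Square) (h1 : p.countP (fun x => x ≠ toad) = q.countP (fun x => x ≠ toad))
    (h2 : p.countP (fun x => x = frog) = q.countP (fun x => x = frog)) (h : rank q < rank p) :
    rank (u ++ q) < rank (u ++ p) := by
  induction u with
  | nil => exact h
  | cons x u ih =>
    cases x <;> simp only [List.cons_append, rank, List.countP_append, h1, h2] <;> omega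

theorem rank_leftMove {p q : List Square} (h : LeftMove p q) : rank q < rank p := by
  cases h with
  | step u v => apply rank_append <;> (simp [rank]; try omega)
  | jump u v => apply rank_append <;> (simp [rank]; try omega)

theorem rank_rightMove {p q : List Square} (h : RightMove p q) : rank q < rank p := by
  cases h with
  | step u v => apply rank_append <;> (simp [rank]; try omega)
  | jump u v => apply rank_append <;> (simp [rank]; try omega)

/-- The game played on the strip `p`: Left's options are the positions reached by her moves, and
Right's options are the positions reached by his moves. -/
def value (p : List Square) : Game :=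
  Game.mk {q // LeftMove p q} {q // RightMove p q} (fun q => value q.1) (fun q => value q.1)
termination_by rank p
decreasing_by
  · exact rank_leftMove q.2
  · exact rank_rightMove q.2

/-- The position with `a` toads, then `a` empty squares, then `a - 1` frogs. -/
def start (a : ℕ) : List Square :=
  List.replicate a toad ++ List.replicate a empty ++ List.replicate (a - 1) frog

end Pool.Agent.N322.TF
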