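import Pool.Agent.N322.TF.Check0
import Pool.Agent.N322.TF.Check1
import Pool.Agent.N322.TF.Check2
import Pool.Agent.N322.TF.Check3
import Pool.Agent.N322.TF.Check4

/-!
# The value of the position with 7 toads, 7 empty squares and 6 frogs is neither `1` nor `1*`
-/

set_option autoImplicit false

namespace Pool.Agent.N322.TF

open Square Game

theorem top0 (f : ℕ → Bool) (a0 : allT f c0_0 = true) (a1 : allT f c0_1 = true) (a2 : allT f c0_2 = true) (a3 : allT f c0_3 = true) (a4 : allT f c0_4 = true) (a5 : allT f c0_5 = true) (a6 : allT f c0_6 = true) (a7 : allT f c0_7 = true) (a8 : allT f c0_8 = true) (a9 : allT f c0_9 = true) (a10 : allT f c0_10 = true) (a11 : allT f c0_11 = true) (a12 : allT f c0_12 = true) (a13 : allT f c0_13 = true) (a14 : allT f c0_14 = true) (a15 : allT f c0_15 = true) (a16 : allT f c0_16 = true) (a17 : allT f c0_17 = true) (a18 : allT f c0_18 = true) (a19 : allT f c0_19 = true) (a20 : allT f c0_20 = true) (a21 : allT f c0_21 = true) (a22 : allT f c0_22 = true) (a23 : allT f c0_23 = true) (a24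 : allT f c0_24 = true) (a25 : allT f c0_25 = true) (a26 : allT f c0_26 = true) (a27 : allT f c0_27 = true) (a28 : allT f c0_28 = true) (a29 : allT f c0_29 = true) (a30 : allT f c0_30 = true) (a31 : allT f c0_31 = true) (a32 : allT f c0_32 = true) (a33 : allT f c0_33 = true) (a34 : allT f c0_34 = true) (a35 : allT f c0_35 = true) (a36 : allT f c0_36 = true) (a37 : allT f c0_37 = true) (a38 : allT f c0_38 = true) (a39 : allT f c0_39 = true) (a40 : allT f c0_40 = true) : allT f t0 = true := by
  unfold t0
  simp only [allT_n, a0, a1, a2, a3, a4, a5, a6, a7, a8, a9, a10, a11, a12, a13, a14, a15, a16, a17, a18, a19, a20, a21, a22, a23, a24, a25, a26, a27, a28, a29, a30, a31, a32, a33, a34, a35, a36, a37, a38, a39, a40, and_self]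

theorem top1 (f : ℕ → Bool) (a0 : allT f c1_0 = true) (a1 : allT f c1_1 = true) (a2 : allT f c1_2 = true) (a3 : allT f c1_3 = true) (a4 : allT f c1_4 = true) (a5 : allT f c1_5 = true) (a6 : allT f c1_6 = true) (a7 : allT f c1_7 = true) (a8 : allT f c1_8 = true) (a9 : allT f c1_9 = true) (a10 : allT f c1_10 = true) (a11 : allT f c1_11 = true) (a12 : allT f c1_12 = true) (a13 : allT f c1_13 = true) (a14 : allT f c1_14 = true) (a15 : allT f c1_15 = true) (a16 : allT f c1_16 = true) (a17 : allT f c1_17 = true) (a18 : allT f c1_18 = true) (a19 : allT f c1_19 = true) (a20 : allT f c1_20 = true) (a21 : allT f c1_21 = true) (a22 : allT f c1_22 = true) (a23 : allT f c1_23 = true) (a24 : allT f c1_24 = true) (a25 : allT f c1_25 = true) (a26 : allT f c1_26 = true) (a27 : allT f c1_27 = true) (a28 : allT f c1_28 = true) : allT f t1 = true := by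
  unfold t1
  simp only [allT_n, a0, a1, a2, a3, a4, a5, a6, a7, a8, a9, a10, a11, a12, a13, a14, a15, a16, a17, a18, a19, a20, a21, a22, a23, a24, a25, a26, a27, a28, and_self]

theorem all0 : allT (rOK t0) t0 = true :=
  top0 _ h0_0 h0_1 h0_2 h0_3 h0_4 h0_5 h0_6 h0_7 h0_8 h0_9 h0_10 h0_11 h0_12 h0_13 h0_14 h0_15 h0_16 h0_17 h0_18 h0_19 h0_20 h0_21 h0_22 h0_23 h0_24 h0_25 h0_26 h0_27 h0_28 h0_29 h0_30 h0_31 h0_32 h0_33 h0_34 h0_35 h0_36 h0_37 h0_38 h0_39 h0_40

theorem all1 : allT (rlOK t0 t1) t1 = true :=
  top1 _ h1_0 h1_1 h1_2 h1_3 h1_4 h1_5 h1_6 h1_7 h1_8 h1_9 h1_10 h1_11 h1_12 h1_13 h1_14 h1_15 h1_16 h1_17 h1_18 h1_19 h1_20 h1_21 h1_22 h1_23 h1_24 h1_25 h1_26 h1_27 h1_28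

/-- the position after the only possible first move of Left -/
def second : List Square :=
  List.replicate 6 toad ++ empty :: toad :: (List.replicate 6 empty ++ List.replicate 6 frog)

theorem leftMove_second : LeftMove (start 7) second :=
  LeftMove.step (List.replicate 6 toad) (List.replicate 6 empty ++ List.replicate 6 frog)

theorem win_start : ∀ H : Game, MinusOne H → ¬ (firstWins (add (value (start 7)) H)).2 :=
  sound t0 t1 all0 all1 (start 7) (by decide) (by decide +kernel)

theorem win_second : ∀ H : Game, MinusOne H → ¬ (firstWins (add (value second) H)).2 :=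
  sound t0 t1 all0 all1 second (by decide) (by decide +kernel)

theorem first_wins (p q : List Square) (hq : LeftMove p q)
    (h : ∀ H : Game, MinusOne H → ¬ (firstWins (add (value q) H)).2) :
    (firstWins (add (value p) (neg one))).1 := by
  rw [value]
  exact ⟨Sum.inl ⟨q, hq⟩, h _ minusOne_neg_one⟩

theorem main1 : (firstWins (add (value (start 7)) (neg one))).1 :=
  first_wins _ _ leftMove_second win_second

theorem main2 : ¬ (firstWins (add (value (start 7)) (neg one))).2 :=
  win_start _ minusOne_neg_one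

theorem ne_one : ¬ Equal (value (start 7)) one :=
  not_equal_one _ _ leftMove_second win_second

theorem ne_one_star : ¬ Equal (value (start 7)) (add one star) :=
  not_equal_one_star _ win_start

end Pool.Agent.N322.TF
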