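import Pool.Agent.N322.TF.Defs

/-!
# Certified strategies for Left in `p - 1`
-/

set_option autoImplicit false

namespace Pool.Agent.N322.TF

open Square Game

/-- a game without options -/
def Dead : Game → Prop
  | Game.mk α β _ _ => IsEmpty α ∧ IsEmpty β

/-- Left has no option, and Right's options have no options -/
def MinusOne : Game → Prop
  | Game.mk α _ _ R => IsEmpty α ∧ ∀ b, Dead (R b)

theorem closed (S : List Square → Bool → Prop)
    (hR : ∀ p j, S p j → ∀ q, RightMove p q → ∃ r, LeftMove q r ∧ S r j)
    (hP : ∀ p, S p true → ∃ r, LeftMove p r ∧ S r false) :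
    ∀ (n : ℕ) (p : List Square) (j : Bool), rank p ≤ n → S p j →
      ∀ H : Game, (j = true → MinusOne H) → (j = false → Dead H) →
        ¬ (firstWins (add (value p) H)).2 := by
  intro n
  induction n using Nat.strong_induction_on with
  | _ n ih =>
    intro p j hn hS H h1 h0
    have left : ∀ (q r : List Square) (j' : Bool) (H' : Game), rank r < rank p → LeftMove q r →
        S r j' → (j' = true → MinusOne H') → (j' = false → Dead H') →
        (firstWins (add (value q) H')).1 := by
      intro q r j' H' hr hq hSr h1' h0'
      obtain ⟨α, β, L, R⟩ := H'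
      rw [value, add_mk_mk]
      exact ⟨Sum.inl ⟨r, hq⟩, ih (rank r) (by omega) r j' le_rfl hSr _ h1' h0'⟩
    obtain ⟨α, β, L, R⟩ := H
    rw [value, add_mk_mk]
    rintro ⟨b | b, hb⟩
    · apply hb
      obtain ⟨q, hq⟩ := b
      obtain ⟨r, hr, hSr⟩ := hR p j hS q hq
      have e1 := rank_rightMove hq
      have e2 := rank_leftMove hr
      exact left q r j _ (by omega) hr hSr h1 h0
    · apply hb
      cases j with
      | false => exact ((h0 rfl).2.false b).elim
      | true =>
        obtain ⟨r, hr, hSr⟩ := hP p hS
        have e2 := rank_leftMove hr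
        have := left p r false (R b) e2 hr hSr (by simp) (fun _ => (h1 rfl).2 b)
        rw [value] at this
        exact this

theorem minusOne_neg_one : MinusOne (neg one) := by
  refine ⟨inferInstanceAs (IsEmpty Empty), fun _ => ⟨inferInstanceAs (IsEmpty Empty),
    inferInstanceAs (IsEmpty Empty)⟩⟩

theorem minusOne_neg_one_zero : MinusOne (neg (add one zero)) := by
  refine ⟨inferInstanceAs (IsEmpty (Empty ⊕ Empty)), ?_⟩
  rintro (b | b)
  · exact ⟨inferInstanceAs (IsEmpty (Empty ⊕ Empty)), inferInstanceAs (IsEmpty (Empty ⊕ Empty))⟩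
  · exact b.elim

/-- if Left wins `p - 1` as the second player then the value of `p` is not `1 + *` -/
theorem not_equal_one_star (p : List Square)
    (h : ∀ H : Game, MinusOne H → ¬ (firstWins (add (value p) H)).2) :
    ¬ Equal (value p) (add one star) := by
  rintro ⟨h1, -⟩
  apply h1
  rw [value]
  exact ⟨Sum.inr (Sum.inr ()), by
    have := h _ minusOne_neg_one_zero
    rw [value] at this
    exact this⟩

/-- if Left has a move from `p` to a position `q` such that she wins `q - 1` as the second player,
then the value of `p` is not `1` -/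
theorem not_equal_one (p q : List Square) (hq : LeftMove p q)
    (h : ∀ H : Game, MinusOne H → ¬ (firstWins (add (value q) H)).2) :
    ¬ Equal (value p) one := by
  rintro ⟨h1, -⟩
  apply h1
  rw [value]
  exact ⟨Sum.inl ⟨q, hq⟩, h _ minusOne_neg_one⟩

end Pool.Agent.N322.TF
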